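import Mathlib

/-!
# A cubic polynomial with small multipliers

For `p(z) = (149/50) z - z^3` all fixed points of the third iterate have multiplier of modulus
smaller than `27`.
-/

set_option autoImplicit false

namespace Pool.Agent.W560.MaxMult

/-- The quartic for the multipliers of the cycles of length three. -/
lemma quartic_bound (m : ℂ)
    (hm : m^4 - (134251/62500)*m^3 - (294880003539/488281250)*m^2
      + (45208894291642237/30517578125000)*m - (2824003398535404125039/59604644775390625) = 0) :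
    ‖m‖ < 27 := by
  by_contra hcon
  push Not at hcon
  set x := ‖m‖ with hx
  have hE : (m^2 - 674) * (m^2 - 2*m + 70) =
      (134251/62500 - 2)*m^3 + (294880003539/488281250 - 604)*m^2
      + (1348 - 45208894291642237/30517578125000)*m
      + (2824003398535404125039/59604644775390625 - 47180) := by
    linear_combination hm
  have h1 : x^2 - 674 ≤ ‖m^2 - 674‖ := by
    have := norm_sub_norm_le (m^2) (674 : ℂ)
    rw [norm_pow] at this
    simpa using this
  have h2 : x^2 - 2*x - 70 ≤ ‖m^2 - 2*m + 70‖ := by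
    have h3 := norm_sub_norm_le (m^2) (2*m - 70 : ℂ)
    have h4 : ‖(2*m - 70 : ℂ)‖ ≤ 2*x + 70 := by
      refine (norm_sub_le _ _).trans ?_
      rw [norm_mul]
      simp [hx]
    have h5 : m^2 - (2*m - 70) = m^2 - 2*m + 70 := by ring
    rw [h5, norm_pow] at h3
    linarith
  have h3 : ‖(m^2 - 674) * (m^2 - 2*m + 70)‖ ≤
      (15/100 : ℝ)*x^3 + (1/10)*x^2 + 134*x + 200 := by
    rw [hE]
    have e1 : ‖((134251/62500 - 2 : ℂ))*m^3‖ ≤ (15/100 : ℝ)*x^3 := by
      rw [norm_mul, norm_pow]
      have : ‖(134251/62500 - 2 : ℂ)‖ ≤ 15/100 := by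
        have : (134251/62500 - 2 : ℂ) = ((134251/62500 - 2 : ℝ) : ℂ) := by push_cast; ring
        rw [this, Complex.norm_real, Real.norm_eq_abs, abs_le]
        constructor <;> norm_num
      gcongr
    have e2 : ‖((294880003539/488281250 - 604 : ℂ))*m^2‖ ≤ (1/10 : ℝ)*x^2 := by
      rw [norm_mul, norm_pow]
      have : ‖(294880003539/488281250 - 604 : ℂ)‖ ≤ 1/10 := by
        have : (294880003539/488281250 - 604 : ℂ) =
          ((294880003539/488281250 - 604 : ℝ) : ℂ) := by push_cast; ring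
        rw [this, Complex.norm_real, Real.norm_eq_abs, abs_le]
        constructor <;> norm_num
      gcongr
    have e3 : ‖((1348 - 45208894291642237/30517578125000 : ℂ))*m‖ ≤ 134*x := by
      rw [norm_mul]
      have : ‖(1348 - 45208894291642237/30517578125000 : ℂ)‖ ≤ 134 := by
        have : (1348 - 45208894291642237/30517578125000 : ℂ) =
          ((1348 - 45208894291642237/30517578125000 : ℝ) : ℂ) := by push_cast; ring
        rw [this, Complex.norm_real, Real.norm_eq_abs, abs_le]
        constructor <;> norm_num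
      gcongr
    have e4 : ‖(2824003398535404125039/59604644775390625 - 47180 : ℂ)‖ ≤ 200 := by
      have : (2824003398535404125039/59604644775390625 - 47180 : ℂ) =
          ((2824003398535404125039/59604644775390625 - 47180 : ℝ) : ℂ) := by push_cast; ring
      rw [this, Complex.norm_real, Real.norm_eq_abs, abs_le]
      constructor <;> norm_num
    refine (norm_add_le _ _).trans ?_
    refine add_le_add ((norm_add_le _ _).trans (add_le_add ((norm_add_le _ _).trans
      (add_le_add e1 e2)) e3)) e4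
  rw [norm_mul] at h3
  have hp1 : 0 < x^2 - 674 := by nlinarith
  have hp2 : 0 < x^2 - 2*x - 70 := by nlinarith
  have h4 : (x^2 - 674) * (x^2 - 2*x - 70) ≤ ‖m^2 - 674‖ * ‖m^2 - 2*m + 70‖ :=
    mul_le_mul h1 h2 hp2.le (norm_nonneg _)
  have h5 : (15/100 : ℝ)*x^3 + (1/10)*x^2 + 134*x + 200 < (x^2 - 674) * (x^2 - 2*x - 70) := by
    obtain ⟨y, hy⟩ : ∃ y, x = 27 + y := ⟨x - 27, by ring⟩
    have hy0 : 0 ≤ y := by linarith
    rw [hy]
    have : 0 < ((27 + y)^2 - 674) * ((27 + y)^2 - 2*(27 + y) - 70)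
        - ((15/100 : ℝ)*(27 + y)^3 + (1/10)*(27 + y)^2 + 134*(27 + y) + 200) := by
      ring_nf
      positivity
    linarith
  linarith

/-- The case of three cycle points with product one, written with `u = a - z^2`. -/
lemma cycle_bound (u0 u1 u2 : ℂ) (hp : u0*u1*u2 = 1)
    (h0 : u1 = u0^3 - (149/50)*u0^2 + 149/50)
    (h1 : u2 = u1^3 - (149/50)*u1^2 + 149/50)
    (h2 : u0 = u2^3 - (149/50)*u2^2 + 149/50) :
    ‖(3*u0 - 149/25)*(3*u1 - 149/25)*(3*u2 - 149/25)‖ < 27 := by
  obtain ⟨s, hs⟩ : ∃ s, s = u0 + u1 + u2 := ⟨_, rfl⟩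
  obtain ⟨t, ht⟩ : ∃ t, t = u0*u1 + u1*u2 + u2*u0 := ⟨_, rfl⟩
  obtain ⟨m, hm⟩ : ∃ m, m = (3*u0 - 149/25)*(3*u1 - 149/25)*(3*u2 - 149/25) := ⟨_, rfl⟩
  rw [← hm]
  have hmst : m = 27 - 18*(149/50)*t + 12*(149/50)^2*s - 8*(149/50)^3 := by
    rw [hm, hs, ht]
    linear_combination 27*hp
  have H1 : t*(3*s - 149/25) = s^3 - (149/50)*s^2 - s + 597/50 := by
    rw [hs, ht]
    linear_combination h0 + h1 + h2 + 3*hp
  have H2 : (s^4 - 4*s^2*t + 2*t^2 + 4*s) - (149/50)*(s^3 - 3*s*t + 3) + (149/50)*s - t = 0 := by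
    rw [hs, ht]
    linear_combination (-1 : ℂ)*(u0*h0 + u1*h1 + u2*h2) + (-4*(u0 + u1 + u2) + 3*(149/50))*hp
  have HR : (s - 3)*((s + 2)*(s^4 - (273/25)*s^3 + (17241/500)*s^2 - (857037/31250)*s
      + 403401/62500)) = 0 := by
    have hL : (3*s - 149/25)^2 * ((s^4 - 4*s^2*t + 2*t^2 + 4*s) - (149/50)*(s^3 - 3*s*t + 3)
      + (149/50)*s - t) = 0 := by rw [H2, mul_zero]
    linear_combination (-1 : ℂ)*hL + (-4*s^2*(3*s - 149/25)
      + 2*(t*(3*s - 149/25) + (s^3 - (149/50)*s^2 - s + 597/50)) + 3*(149/50)*s*(3*s - 149/25)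
      - (3*s - 149/25))*H1
  rcases mul_eq_zero.mp HR with h3 | h3
  · -- fixed point
    have hs3 : s = 3 := by linear_combination h3
    have ht3 : t = 3 := by
      rw [hs3] at H1
      linear_combination (1/(3*3 - 149/25) : ℂ)*H1
    rw [hs3, ht3] at hmst
    have : m = ((27 - 18*(149/50)*3 + 12*(149/50)^2*3 - 8*(149/50)^3 : ℝ) : ℂ) := by
      rw [hmst]; push_cast; ring
    rw [this, Complex.norm_real, Real.norm_eq_abs, abs_lt]
    constructor <;> norm_num
  rcases mul_eq_zero.mp h3 with h4 | h4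
  · -- spurious
    exfalso
    have hs2 : s = -2 := by linear_combination h4
    have ht2 : t = 1/2 := by
      rw [hs2] at H1
      linear_combination (1/(3*(-2) - 149/25) : ℂ)*H1
    rw [hs2] at hs
    rw [ht2] at ht
    have e0 : u0 = -2 - u1 - u2 := by linear_combination (-1 : ℂ)*hs
    have d0 : u1 - u2 = (u0 - u1)*(7/2 + 149/25 + (2 + 149/50)*u2) := by
      linear_combination h0 - h1 + (u0 - u1)*(2 + 149/50 - (u0 + u1))*hs + (u0 - u1)*ht
    have d1 : u2 - u0 = (u1 - u2)*(7/2 + 149/25 + (2 + 149/50)*u0) := by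
      linear_combination h1 - h2 + (u1 - u2)*(2 + 149/50 - (u1 + u2))*hs + (u1 - u2)*ht
    have d2 : u0 - u1 = (u2 - u0)*(7/2 + 149/25 + (2 + 149/50)*u1) := by
      linear_combination h2 - h0 + (u2 - u0)*(2 + 149/50 - (u2 + u0))*hs + (u2 - u0)*ht
    have key : (u0 - u1)*((7/2 + 149/25)^3 + (7/2 + 149/25)^2*(2 + 149/50)*(-2)
        + (7/2 + 149/25)*(2 + 149/50)^2*(1/2) + (2 + 149/50)^3 - 1) = 0 := by
      have k1 : (u0 - u1) = (u0 - u1)*(7/2 + 149/25 + (2 + 149/50)*u2)
          *(7/2 + 149/25 + (2 + 149/50)*u0)*(7/2 + 149/25 + (2 + 149/50)*u1) := by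
        rw [← d0, ← d1, ← d2]
      linear_combination (-1 : ℂ)*k1 + (u0 - u1)*(7/2 + 149/25)^2*(2 + 149/50)*hs
        + (u0 - u1)*(7/2 + 149/25)*(2 + 149/50)^2*ht - (u0 - u1)*(2 + 149/50)^3*hp
    have hk : u0 - u1 = 0 := by
      rcases mul_eq_zero.mp key with h | h
      · exact h
      · exfalso; norm_num at h
    have hk2 : u1 - u2 = 0 := by rw [d0, hk, zero_mul]
    have e1 : u0 = -2/3 := by linear_combination (-1/3 : ℂ)*hs + (2/3)*hk + (1/3)*hk2
    have e2 : u1 = -2/3 := by linear_combination e1 - hk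
    have e3 : u2 = -2/3 := by linear_combination e2 - hk2
    rw [e1, e2, e3] at hp
    norm_num at hp
  · -- the genuine cycles
    apply quartic_bound
    have hK : m*(3*s - 149/25) = (359689427/781250) + (-17743944/15625)*s
        + (599427/1250)*s^2 + (-1341/25)*s^3 := by
      rw [hmst]
      linear_combination (-18*(149/50) : ℂ)*H1
    have hLne : (3*s - 149/25 : ℂ) ≠ 0 := by
      intro h
      have hs' : s = 149/75 := by linear_combination (1/3 : ℂ)*h
      rw [hs'] at h4
      norm_num at h4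
    have hbig : (3*s - 149/25)^4 * (m^4 - (134251/62500)*m^3 - (294880003539/488281250)*m^2
      + (45208894291642237/30517578125000)*m - (2824003398535404125039/59604644775390625)) = 0 := by
      obtain ⟨K, hKd⟩ : ∃ K, K = (359689427/781250 : ℂ) + (-17743944/15625)*s
        + (599427/1250)*s^2 + (-1341/25)*s^3 := ⟨_, rfl⟩
      obtain ⟨L, hLd⟩ : ∃ L, L = (3*s - 149/25 : ℂ) := ⟨_, rfl⟩
      rw [← hKd, ← hLd] at hK
      have e1 : L^4 * (m^4 - (134251/62500)*m^3 - (294880003539/488281250)*m^2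
        + (45208894291642237/30517578125000)*m - (2824003398535404125039/59604644775390625))
        = K^4 - (134251/62500)*K^3*L - (294880003539/488281250)*K^2*L^2
        + (45208894291642237/30517578125000)*K*L^3
        - (2824003398535404125039/59604644775390625)*L^4 := by
        rw [← hK]; ring
      rw [← hLd, e1, hKd, hLd]
      linear_combination ((3060713366257503760941696237/476837158203125000) + (-737118743932405165907647827/19073486328125000)*s + (3048173528942679573048327/38146972656250)*s^2 + (-582609844132037582078889/7629394531250)*s^3 + (48558718891922007285027/1220703125000)*s^4 + (-589806048915683738217/48828125000)*s^5 + (1045374750356727717/488281250)*s^6 + (-2008198838630781/9765625)*s^7 + (3233814554961/390625)*s^8)*h4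
    rcases mul_eq_zero.mp hbig with h | h
    · exact absurd (pow_eq_zero_iff (by norm_num) |>.mp h) hLne
    · exact h

/-- All fixed points of the third iterate have small multipliers. -/
lemma multiplier_bound (z z1 z2 : ℂ) (h0 : z1 = (149/50)*z - z^3)
    (h1 : z2 = (149/50)*z1 - z1^3) (h2 : z = (149/50)*z2 - z2^3) :
    ‖(149/50 - 3*z^2)*(149/50 - 3*z1^2)*(149/50 - 3*z2^2)‖ < 27 := by
  by_cases hz : z = 0
  · have hz1 : z1 = 0 := by rw [h0, hz]; ring
    have hz2 : z2 = 0 := by rw [h1, hz1]; ring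
    rw [hz, hz1, hz2]
    have : ((149/50 - 3*0^2)*(149/50 - 3*0^2)*(149/50 - 3*0^2) : ℂ) = ((149/50 : ℝ)^3 : ℝ) := by
      push_cast; ring
    rw [this, Complex.norm_real, Real.norm_eq_abs, abs_lt]
    constructor <;> norm_num
  · have hp : (149/50 - z^2)*(149/50 - z1^2)*(149/50 - z2^2) = 1 := by
      have e1 : z1 = z*(149/50 - z^2) := by rw [h0]; ring
      have e2 : z2 = z1*(149/50 - z1^2) := by rw [h1]; ring
      have e3 : z = z2*(149/50 - z2^2) := by linear_combination h2
      have e4 : z*((149/50 - z^2)*(149/50 - z1^2)*(149/50 - z2^2) - 1) = 0 := by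
        linear_combination (-1 : ℂ)*(149/50 - z1^2)*(149/50 - z2^2)*e1
          - (149/50 - z2^2)*e2 - e3
      rcases mul_eq_zero.mp e4 with h | h
      · exact absurd h hz
      · linear_combination h
    have := cycle_bound (149/50 - z^2) (149/50 - z1^2) (149/50 - z2^2) hp
      (by rw [h0]; ring) (by rw [h1]; ring)
      (by linear_combination (-(z + ((149/50)*z2 - z2^3)) : ℂ)*h2)
    have e : (149/50 - 3*z^2)*(149/50 - 3*z1^2)*(149/50 - 3*z2^2) =
        (3*(149/50 - z^2) - 149/25)*(3*(149/50 - z1^2) - 149/25)*(3*(149/50 - z2^2) - 149/25) := by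
      ring
    rw [e]
    exact this

end Pool.Agent.W560.MaxMult
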